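import Pool.Agent.Q287.Nat7

/-!
# A tangential `1`-block over `GF(7)` with a modular copoint which is not supersolvable

The example has rank four and twenty points: seven points `(1, t, f t)` off the modular copoint and
the thirteen directions which they determine.
-/

set_option linter.all false
set_option maxRecDepth 100000

namespace Pool.Agent.Results.MP_e1005d_co.NotSupersolvable

open Set Module Submodule Pool.Agent.Helper236 Pool.Agent.Q287.TBlock Pool.Agent.Q287.Nat7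

/-- `M` is a tangential `k`-block over the finite field `F`: it is finite, simple and representable
over `F`, its critical exponent is larger than `k`, and every loopless proper minor of `M` has
critical exponent at most `k`. -/
def IsTangentialBlock (F : Type) [Field F] (k : ℕ) {α : Type} (M : Matroid α) : Prop :=
  M.Finite ∧ IsSimple M ∧ Representable F M ∧ (k : ℕ∞) < critExp M (Nat.card F) ∧
    ∀ N : Matroid α, N.IsMinor M → N ≠ M → (∀ e ∈ N.E, N.IsNonloop e) →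
      critExp N (Nat.card F) ≤ k

/-- `M` is supersolvable: there is a chain of modular flats `G 0 ⊆ G 1 ⊆ ... ⊆ G r` with
`r (G i) = i`, where `r` is the rank of `M`. -/
def IsSupersolvable {α : Type} (M : Matroid α) : Prop :=
  ∃ G : ℕ → Set α, (∀ i ≤ rk M M.E, IsModularFlat M (G i) ∧ rk M (G i) = i) ∧
    ∀ i < rk M M.E, G i ⊆ G (i + 1)

/-- the twenty points -/
def ptList : List Q4 := [
  (1, 0, 0, 0), (1, 1, 0, 0), (1, 2, 2, 6), (1, 3, 0, 0), (1, 4, 0, 6), (1, 5, 1, 3),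
  (1, 6, 2, 0), (0, 1, 0, 0), (0, 1, 1, 3), (0, 1, 0, 5), (0, 1, 3, 2), (0, 1, 5, 0),
  (0, 1, 2, 6), (0, 1, 0, 2), (0, 1, 6, 0), (0, 1, 5, 1), (0, 1, 0, 6), (0, 1, 4, 5),
  (0, 1, 3, 0), (0, 1, 1, 4)]

def P (i : ℕ) : Q4 := ptList.getD i (0, 0, 0, 0)

/-- tangents to the points -/
def tpList : List Q4 := [
  (0, 1, 0, 0), (1, 6, 0, 0), (1, 3, 0, 0), (1, 2, 0, 0), (1, 1, 6, 5), (1, 4, 0, 0),
  (1, 1, 0, 0), (1, 0, 1, 6), (1, 4, 0, 1), (1, 3, 2, 5), (1, 5, 1, 3), (1, 3, 5, 4),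
  (1, 1, 3, 0), (1, 1, 5, 3), (1, 1, 1, 2), (1, 5, 0, 2), (1, 4, 6, 4), (1, 1, 5, 0),
  (1, 4, 1, 1), (1, 1, 3, 6)]

def TP (i : ℕ) : Q4 := tpList.getD i (0, 0, 0, 0)

/-- tangents to the lines -/
def tl : List Q4 := [
  (0, 0, 1, 1), (0, 1, 0, 2), (0, 1, 3, 4), (0, 1, 3, 2), (0, 1, 4, 6), (0, 1, 3, 0),
  (0, 1, 5, 3), (0, 1, 1, 0), (0, 1, 0, 6), (0, 1, 5, 1), (0, 1, 5, 0), (0, 1, 2, 2),
  (0, 1, 0, 5), (1, 6, 1, 1), (1, 6, 1, 4), (1, 6, 6, 0), (1, 6, 0, 5), (1, 6, 4, 3),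
  (1, 6, 2, 1), (1, 6, 3, 1), (1, 6, 0, 1), (1, 6, 2, 6), (1, 6, 1, 5), (1, 6, 5, 5),
  (1, 6, 0, 2), (1, 2, 0, 5), (1, 3, 3, 6), (1, 3, 1, 2), (1, 0, 1, 3), (1, 5, 1, 6),
  (1, 1, 3, 2), (1, 5, 6, 2), (1, 5, 4, 5), (1, 4, 3, 1), (1, 5, 3, 3), (1, 3, 2, 4),
  (1, 2, 3, 2), (1, 2, 3, 0), (1, 2, 4, 4), (1, 2, 0, 4), (1, 2, 6, 1), (1, 2, 3, 5),
  (1, 2, 1, 5), (1, 2, 5, 5), (1, 2, 3, 6), (1, 2, 2, 0), (1, 2, 0, 3), (1, 1, 0, 5),
  (1, 0, 1, 1), (1, 1, 5, 5), (1, 3, 2, 6), (1, 4, 2, 3), (1, 4, 3, 3), (1, 1, 3, 5),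
  (1, 3, 4, 6), (1, 3, 6, 6), (1, 0, 1, 4), (1, 5, 0, 3), (1, 1, 3, 4), (1, 1, 4, 6),
  (1, 1, 6, 3), (1, 1, 1, 0), (1, 3, 0, 4), (1, 1, 5, 1), (1, 1, 2, 2), (1, 0, 3, 2),
  (1, 1, 0, 2), (1, 4, 5, 2), (1, 3, 1, 4), (1, 4, 5, 0), (1, 1, 0, 6), (1, 3, 1, 3),
  (1, 3, 1, 0), (1, 0, 1, 2), (1, 0, 1, 0), (1, 0, 0, 3), (1, 0, 1, 5), (1, 1, 1, 4),
  (1, 1, 4, 3), (1, 1, 3, 1), (1, 1, 2, 6), (1, 1, 6, 0), (1, 3, 5, 5), (1, 1, 5, 4),
  (1, 1, 6, 4), (1, 3, 0, 5), (1, 1, 2, 4), (1, 3, 0, 2), (1, 3, 3, 1), (1, 3, 4, 3),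
  (1, 3, 6, 0), (1, 1, 4, 2), (1, 1, 4, 0), (1, 1, 4, 1), (1, 3, 5, 1), (1, 1, 1, 3),
  (1, 3, 0, 3), (1, 3, 6, 1), (1, 1, 2, 3), (1, 1, 3, 3), (1, 1, 1, 1), (1, 1, 1, 6),
  (1, 1, 5, 2), (1, 1, 2, 1)]

/-- four planes, each with three of its points and the dual functionals -/
def pl : List (Q4 × ℕ × ℕ × ℕ × Q4 × Q4 × Q4) := [
  ((1, 0, 5, 4), 2, 7, 19, (0, 0, 2, 3), (0, 1, 6, 0), (0, 0, 4, 1)),
  ((0, 1, 0, 1), 0, 12, 16, (1, 0, 0, 0), (0, 0, 4, 0), (0, 0, 3, 6)),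
  ((1, 5, 6, 0), 4, 11, 15, (0, 2, 1, 0), (0, 5, 2, 6), (0, 2, 1, 1)),
  ((0, 1, 2, 4), 0, 4, 18, (1, 0, 0, 1), (0, 0, 0, 6), (0, 0, 5, 0))]

theorem fact_tangent : ∀ i < 20, ev4 (TP i) (P i) = 0 ∧
    ∀ j < 20, j ≠ i → ev4 (TP i) (P j) ≠ 0 := by
  decide +kernel

theorem fact_simple : ∀ i < 20, ∀ j < 20, i ≠ j → ∀ c < 7,
    comb4 c (P i) 0 (P i) 1 (P j) = false := by
  decide +kernel

theorem fact_line : ∀ i < 20, ∀ j < i, ∃ a ∈ tl, ev4 a (P i) = 0 ∧ ev4 a (P j) = 0 ∧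
    ∀ l < 20, ev4 a (P l) = 0 → ∃ c < 7, ∃ d < 7, comb4 c (P i) d (P j) 1 (P l) = true := by
  decide +kernel

theorem fact_mod : ∀ i < 7, ∀ j < 7, i ≠ j → ∃ l < 20, 7 ≤ l ∧ ∃ c < 7, c ≠ 0 ∧
    comb4 1 (P i) 6 (P j) c (P l) = true := by
  decide +kernel

theorem fact_coord : ∀ i < 20, if i < 7 then (P i).1 = 1 else (P i).1 = 0 := by
  decide +kernel

theorem fact_plane : ∀ p ∈ pl,
    (ev4 p.1 (P p.2.1) = 0 ∧ ev4 p.1 (P p.2.2.1) = 0 ∧ ev4 p.1 (P p.2.2.2.1) = 0) ∧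
    (p.2.1 < 20 ∧ p.2.2.1 < 20 ∧ p.2.2.2.1 < 20) ∧
    (ev4 p.2.2.2.2.1 (P p.2.1) = 1 ∧ ev4 p.2.2.2.2.1 (P p.2.2.1) = 0 ∧
      ev4 p.2.2.2.2.1 (P p.2.2.2.1) = 0) ∧
    (ev4 p.2.2.2.2.2.1 (P p.2.1) = 0 ∧ ev4 p.2.2.2.2.2.1 (P p.2.2.1) = 1 ∧
      ev4 p.2.2.2.2.2.1 (P p.2.2.2.1) = 0) ∧
    (ev4 p.2.2.2.2.2.2 (P p.2.1) = 0 ∧ ev4 p.2.2.2.2.2.2 (P p.2.2.1) = 0 ∧
      ev4 p.2.2.2.2.2.2 (P p.2.2.2.1) = 1) := by
  decide +kernel

theorem fact_avoid : ∀ i < 20, ∀ j < i, ∃ p ∈ pl, ev4 p.1 (P i) ≠ 0 ∧ ev4 p.1 (P j) ≠ 0 ∧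
    ∀ l < 20, ∀ c < 7,
      comb4 (ev4 p.1 (P j)) (P i) (6 * ev4 p.1 (P i)) (P j) c (P l) = false := by
  decide +kernel

/-- the points as vectors -/
def pt (i : Fin 20) : Fin 4 → ZMod 7 := v4 (P i)

/-- the rank four matroid on twenty points -/
noncomputable def Mat : Matroid (Fin 20) := linMatroid (ZMod 7) pt univ (Set.toFinite _)

theorem Mat_E : Mat.E = univ := rfl

theorem Mat_finite : Mat.Finite := ⟨Set.toFinite _⟩

theorem Mat_rep : Rep (ZMod 7) Mat pt := linMatroid_rep _ _ _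

theorem not_prop (i j : Fin 20) (hij : i ≠ j) (c : ZMod 7) : c • pt i ≠ pt j := by
  intro h
  obtain ⟨m, hm, rfl⟩ := exists_nat c
  have h1 := fact_simple i i.2 j j.2 (fun h => hij (Fin.ext h)) m hm
  have h2 : comb4 m (P i) 0 (P i) 1 (P j) = true := by
    rw [comb4_iff, Nat.cast_zero, Nat.cast_one, one_smul, zero_smul, add_zero]
    exact h
  rw [h1] at h2
  exact Bool.false_ne_true h2

theorem dot_pt (a : Q4) (i : Fin 20) : dotL (v4 a) (pt i) = 0 ↔ ev4 a (P i) = 0 :=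
  dot4_eq_zero a (P i)

theorem pt_ne_zero (i : Fin 20) : pt i ≠ 0 := by
  intro h
  obtain ⟨j, hj⟩ : ∃ j : Fin 20, j ≠ i := exists_ne i
  have h1 := (fact_tangent j j.2).2 i i.2 (fun h => hj (Fin.ext h.symm))
  apply h1
  rw [← dot_pt, h, map_zero]

theorem Mat_simple : IsSimple Mat := by
  intro e _ f _
  rw [Mat_rep _ (subset_univ _)]
  by_cases hef : e = f
  · subst hef
    simpa using pt_ne_zero e
  · rw [linearIndepOn_pair_iff _ hef (pt_ne_zero e)]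
    exact fun c => not_prop e f hef c

theorem Mat_rank : rk Mat Mat.E = 4 := by
  have := Mat_finite
  rw [Mat_rep.rk_eq Subset.rfl]
  have htop : span (ZMod 7) (pt '' Mat.E) = ⊤ := by
    rw [eq_top_iff]
    intro x _
    have h0 := Submodule.subset_span (R := ZMod 7) (mem_image_of_mem pt (mem_univ (0 : Fin 20)))
    have h1 := Submodule.subset_span (R := ZMod 7) (mem_image_of_mem pt (mem_univ (7 : Fin 20)))
    have h2 := Submodule.subset_span (R := ZMod 7) (mem_image_of_mem pt (mem_univ (11 : Fin 20)))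
    have h3 := Submodule.subset_span (R := ZMod 7) (mem_image_of_mem pt (mem_univ (9 : Fin 20)))
    have e0 : pt 0 = ![1, 0, 0, 0] := by decide
    have e7 : pt 7 = ![0, 1, 0, 0] := by decide
    have e11 : pt 11 = ![0, 1, 5, 0] := by decide
    have e9 : pt 9 = ![0, 1, 0, 5] := by decide
    have hx : x = x 0 • pt 0 + (x 1 - 3 * x 2 - 3 * x 3) • pt 7 + (3 * x 2) • pt 11 +
        (3 * x 3) • pt 9 := by
      have h15 : (15 : ZMod 7) = 1 := by decide
      rw [e0, e7, e11, e9]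
      ext i
      fin_cases i
      · simp
      · simp
        ring
      · simp
        linear_combination (-x 2) * h15
      · simp
        linear_combination (-x 3) * h15
    rw [hx]
    exact Submodule.add_mem _ (Submodule.add_mem _ (Submodule.add_mem _
      (Submodule.smul_mem _ _ h0) (Submodule.smul_mem _ _ h1)) (Submodule.smul_mem _ _ h2))
      (Submodule.smul_mem _ _ h3)
  rw [htop, finrank_top, Module.finrank_fin_fun]

theorem mem_closure_pair (i j l : Fin 20) :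
    l ∈ Mat.closure {i, j} ↔ ∃ c d : ZMod 7, c • pt i + d • pt j = pt l := by
  rw [Mat_rep.mem_closure_iff (subset_univ _) (mem_univ _), image_pair, mem_span_pair]

/-- A flat of rank two is spanned by two points. -/
theorem rank_two (G : Set (Fin 20)) (hG : Mat.IsFlat G) (h : rk Mat G = 2) :
    ∃ i j, j < i ∧ G = Mat.closure {i, j} := by
  have := Mat_finite
  obtain ⟨I, hI⟩ := Mat.exists_isBasis G hG.subset_ground
  have h1 : I.encard = 2 := by
    have h2 : rk Mat G = (I.encard).toNat := by rw [rk, ← hI.encard_eq_eRk]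
    have hf : I.Finite := Set.toFinite _
    rw [h, ← hf.cast_ncard_eq] at h2
    rw [← hf.cast_ncard_eq]
    simp at h2
    exact_mod_cast h2.symm
  obtain ⟨i, j, hij, rfl⟩ := Set.encard_eq_two.1 h1
  rcases lt_or_gt_of_ne hij with hlt | hlt
  · refine ⟨j, i, hlt, ?_⟩
    rw [Set.pair_comm, hI.closure_eq_closure, hG.closure]
  · refine ⟨i, j, hlt, ?_⟩
    rw [hI.closure_eq_closure, hG.closure]

theorem coord (i : Fin 20) : pt i 0 = 0 ↔ 7 ≤ (i : ℕ) := by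
  have h := fact_coord i i.2
  have h0 : pt i 0 = ((P i).1 : ZMod 7) := rfl
  rw [h0]
  split_ifs at h with h1
  · rw [h]
    constructor
    · intro h2; exact absurd h2 (by decide)
    · intro h2; omega
  · rw [h]
    constructor
    · intro _; omega
    · intro _; simp

theorem coord_one (i : Fin 20) (h : (i : ℕ) < 7) : pt i 0 = 1 := by
  have h1 := fact_coord i i.2
  rw [if_pos h] at h1
  have h0 : pt i 0 = ((P i).1 : ZMod 7) := rfl
  rw [h0, h1]
  simp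

/-- the modular copoint -/
def H0 : Set (Fin 20) := {i | 7 ≤ (i : ℕ)}

theorem H0_iff (e : Fin 20) : e ∈ H0 ↔ e ∈ Mat.E ∧
    (LinearMap.proj 0 : (Fin 4 → ZMod 7) →ₗ[ZMod 7] ZMod 7) (pt e) = 0 :=
  ⟨fun h => ⟨mem_univ _, (coord e).2 h⟩, fun h => (coord e).1 h.2⟩

theorem meets : ∀ e ∈ Mat.E, ∀ f ∈ Mat.E, e ∉ H0 → f ∉ H0 → e ≠ f → ∃ x ∈ H0, ∃ c : ZMod 7,
    c ≠ 0 ∧ (LinearMap.proj 0 : (Fin 4 → ZMod 7) →ₗ[ZMod 7] ZMod 7) (pt f) • pt e -
      (LinearMap.proj 0 : (Fin 4 → ZMod 7) →ₗ[ZMod 7] ZMod 7) (pt e) • pt f = c • pt x := by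
  intro e _ f _ he hf hef
  have he' : (e : ℕ) < 7 := not_le.1 he
  have hf' : (f : ℕ) < 7 := not_le.1 hf
  obtain ⟨l, hl, hl7, c, hc, hc0, h⟩ := fact_mod e he' f hf' (fun h => hef (Fin.ext h))
  refine ⟨⟨l, hl⟩, hl7, (c : ZMod 7), ?_, ?_⟩
  · intro h0
    have := (nat_eq c 0).1 (by simpa using h0)
    rw [Nat.mod_eq_of_lt hc, Nat.zero_mod] at this
    exact hc0 this
  · rw [comb4_iff] at h
    have e1 : (LinearMap.proj 0 : (Fin 4 → ZMod 7) →ₗ[ZMod 7] ZMod 7) (pt f) = 1 :=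
      coord_one f hf'
    have e2 : (LinearMap.proj 0 : (Fin 4 → ZMod 7) →ₗ[ZMod 7] ZMod 7) (pt e) = 1 :=
      coord_one e he'
    rw [e1, e2]
    have h6 : ((6 : ℕ) : ZMod 7) = -1 := by decide
    rw [h6, Nat.cast_one] at h
    show (1 : ZMod 7) • v4 (P e) - (1 : ZMod 7) • v4 (P f) = (c : ZMod 7) • v4 (P l)
    rw [← h, neg_smul, sub_eq_add_neg]

theorem Mat_modular : IsModularHyperplane Mat H0 := by
  have := Mat_finite
  exact modular_of_meets Mat_rep _ H0_iff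
    ⟨0, mem_univ _, by show ¬ (7 ≤ ((0 : Fin 20) : ℕ)); decide⟩ meets

theorem Mat_block (f : (Fin 4 → ZMod 7) →ₗ[ZMod 7] (Fin 1 → ZMod 7)) :
    ∃ e ∈ Mat.E, f (pt e) = 0 := by
  apply exists_fin_one
  intro g
  have hlt : ∀ t : ZMod 7, t.val < 7 := fun t => ZMod.val_lt t
  refine block_one (M := Mat) (v := pt) (H := H0) _ H0_iff meets
    (fun t : ZMod 7 => ⟨t.val, (hlt t).trans (by norm_num)⟩) ?_ ?_ g
  · intro t
    refine ⟨mem_univ _, ?_⟩
    show ¬ (7 ≤ t.val)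
    exact not_le.2 (hlt t)
  · intro s t h
    have : s.val = t.val := congrArg (fun x : Fin 20 => (x : ℕ)) h
    exact ZMod.val_injective 7 this

theorem Mat_flats (G : Set (Fin 20)) (hG : Mat.IsFlat G) (hGne : G.Nonempty) :
    ∃ f : (Fin 4 → ZMod 7) →ₗ[ZMod 7] (Fin 1 → ZMod 7),
      (∀ x ∈ G, f (pt x) = 0) ∧ ∀ x ∈ Mat.E, x ∉ G → f (pt x) ≠ 0 := by
  have := Mat_finite
  suffices hsuff : ∃ f : (Fin 4 → ZMod 7) →ₗ[ZMod 7] ZMod 7,
      (∀ x ∈ G, f (pt x) = 0) ∧ ∀ x ∈ Mat.E, x ∉ G → f (pt x) ≠ 0 by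
    obtain ⟨f, hf1, hf2⟩ := hsuff
    refine ⟨LinearMap.pi (fun _ => f), ?_, ?_⟩
    · intro x hx
      ext i
      simpa using hf1 x hx
    · intro x hx hxG h0
      apply hf2 x hx hxG
      have := congrFun h0 0
      simpa using this
  have hlt : ∀ X Y : Set (Fin 20), Mat.IsFlat X → X ⊆ Y → X ≠ Y → rk Mat X < rk Mat Y := by
    intro X Y hX hXY hne
    rw [Mat_rep.rk_eq (subset_univ _), Mat_rep.rk_eq (subset_univ _)]
    apply Submodule.finrank_lt_finrank_of_lt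
    refine lt_of_le_of_ne (span_mono (image_mono hXY)) fun heq => ?_
    obtain ⟨y, hyY, hyX⟩ := Set.exists_of_ssubset (hXY.ssubset_of_ne hne)
    have : y ∈ Mat.closure X := (Mat_rep.mem_closure_iff (subset_univ _) (mem_univ _)).2 (by
      rw [heq]
      exact subset_span (mem_image_of_mem pt hyY))
    rw [hX.closure] at this
    exact hyX this
  obtain ⟨e, he⟩ := hGne
  by_cases h1 : G = {e}
  · obtain ⟨h2, h3⟩ := fact_tangent e e.2
    refine ⟨dotL (v4 (TP e)), ?_, ?_⟩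
    · intro x hx
      rw [h1, mem_singleton_iff] at hx
      rw [hx]
      exact (dot_pt _ _).2 h2
    · intro x hx hxG h0
      refine h3 x x.2 ?_ ((dot_pt _ _).1 h0)
      intro h
      have : x = e := Fin.ext h
      rw [this] at hxG
      exact hxG he
  by_cases h4 : G = Mat.E
  · refine ⟨0, by simp, ?_⟩
    intro x hx hxG
    rw [h4] at hxG
    exact absurd hx hxG
  have ha := hlt {e} G (isFlat_singleton_of_simple Mat_rep Mat_simple (mem_univ e))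
    (by simpa using he) (Ne.symm h1)
  have hb := hlt G Mat.E hG (subset_univ _) h4
  have hc : rk Mat {e} = 1 := by
    rw [rk, ((isSimple_nonloop Mat_simple) e (mem_univ e)).eRk_eq]
    rfl
  rw [Mat_rank] at hb
  by_cases h3 : rk Mat G = 3
  · exact exists_functional Mat_rep hG (by rw [h3, Mat_rank])
  · obtain ⟨i, j, hij, rfl⟩ := rank_two G hG (by omega)
    obtain ⟨a, -, h5, h6, h7⟩ := fact_line i i.2 j hij
    refine ⟨dotL (v4 a), ?_, ?_⟩
    · intro x hx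
      obtain ⟨c, d, hcd⟩ := (mem_closure_pair i j x).1 hx
      rw [← hcd, map_add, map_smul, map_smul, (dot_pt a i).2 h5, (dot_pt a j).2 h6]
      simp
    · intro x _ hxG h0
      obtain ⟨c, -, d, -, h8⟩ := h7 x x.2 ((dot_pt a x).1 h0)
      rw [comb4_iff, Nat.cast_one, one_smul] at h8
      exact hxG ((mem_closure_pair i j x).2 ⟨c, d, h8⟩)

theorem Mat_not_supersolvable : ¬ IsSupersolvable Mat := by
  have := Mat_finite
  rintro ⟨G, hG, -⟩
  obtain ⟨hmod, hrk⟩ := hG 2 (by rw [Mat_rank]; norm_num)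
  obtain ⟨i, j, hij, hGij⟩ := rank_two _ hmod.1 hrk
  obtain ⟨p, hp, hai, haj, hav⟩ := fact_avoid i i.2 j hij
  obtain ⟨⟨h1, h2, h3⟩, ⟨l1, l2, l3⟩, ⟨a1, a2, a3⟩, ⟨b1, b2, b3⟩, ⟨c1, c2, c3⟩⟩ := fact_plane p hp
  set x : Fin 20 := ⟨p.2.1, l1⟩ with hx
  set y : Fin 20 := ⟨p.2.2.1, l2⟩ with hy
  set z : Fin 20 := ⟨p.2.2.2.1, l3⟩ with hz
  set H : Set (Fin 20) := Mat.closure {x, y, z} with hH
  have hspan : ∀ l ∈ H, dotL (v4 p.1) (pt l) = 0 := by
    intro l hl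
    rw [hH, Mat_rep.mem_closure_iff (subset_univ _) (mem_univ _)] at hl
    have hle : span (ZMod 7) (pt '' {x, y, z}) ≤ LinearMap.ker (dotL (v4 p.1)) := by
      rw [span_le]
      rintro _ ⟨w, hw, rfl⟩
      rcases hw with rfl | rfl | rfl
      · exact (dot_pt p.1 x).2 h1
      · exact (dot_pt p.1 y).2 h2
      · exact (dot_pt p.1 z).2 h3
    exact hle hl
  have hone : ∀ (a : Q4) (w : Fin 20), ev4 a (P w) = 1 → dotL (v4 a) (pt w) = 1 := by
    intro a w h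
    show dot (v4 a) (v4 (P w)) = 1
    rw [dot4, h, Nat.cast_one]
  have hrH : rk Mat H = 3 := by
    have e1 : rk Mat H = rk Mat {x, y, z} := by
      rw [rk, rk, hH, Mat.eRk_closure_eq]
    have hli : LinearIndependent (ZMod 7) ![pt x, pt y, pt z] := by
      rw [Fintype.linearIndependent_iff]
      intro g hg
      rw [Fin.sum_univ_three] at hg
      have hg' : g 0 • pt x + g 1 • pt y + g 2 • pt z = 0 := hg
      intro i
      fin_cases i
      · have := congrArg (dotL (v4 p.2.2.2.2.1)) hg'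
        simp only [map_add, map_smul, map_zero, hone _ x a1, (dot_pt _ y).2 a2,
          (dot_pt _ z).2 a3, smul_eq_mul, mul_one, mul_zero, add_zero] at this
        exact this
      · have := congrArg (dotL (v4 p.2.2.2.2.2.1)) hg'
        simp only [map_add, map_smul, map_zero, hone _ y b2, (dot_pt _ x).2 b1,
          (dot_pt _ z).2 b3, smul_eq_mul, mul_one, mul_zero, add_zero, zero_add] at this
        exact this
      · have := congrArg (dotL (v4 p.2.2.2.2.2.2)) hg'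
        simp only [map_add, map_smul, map_zero, hone _ z c3, (dot_pt _ x).2 c1,
          (dot_pt _ y).2 c2, smul_eq_mul, mul_one, mul_zero, add_zero, zero_add] at this
        exact this
    rw [e1, Mat_rep.rk_eq (subset_univ _)]
    have e2 : pt '' {x, y, z} = Set.range ![pt x, pt y, pt z] := by
      rw [image_insert_eq, image_pair]
      ext w
      simp [Fin.exists_fin_succ, eq_comm]
      tauto
    rw [e2, finrank_span_eq_card hli]
    simp
  have hm := hmod.2 H (Mat.isFlat_closure _)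
  have hle : rk Mat (G 2 ∪ H) ≤ 4 := by
    rw [← Mat_rank, Mat_rep.rk_eq (subset_univ _), Mat_rep.rk_eq Subset.rfl]
    exact Submodule.finrank_mono (span_mono (image_mono (subset_univ _)))
  have hne : rk Mat (G 2 ∩ H) ≠ 0 := by omega
  apply hne
  have : G 2 ∩ H = ∅ := by
    rw [Set.eq_empty_iff_forall_notMem]
    rintro l ⟨hl1, hl2⟩
    rw [hGij] at hl1
    obtain ⟨c, d, hcd⟩ := (mem_closure_pair i j l).1 hl1
    have h0 := hspan l hl2
    rw [← hcd, map_add, map_smul, map_smul, smul_eq_mul, smul_eq_mul] at h0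
    set ai := dotL (v4 p.1) (pt i) with hai'
    set aj := dotL (v4 p.1) (pt j) with haj'
    have hai0 : ai ≠ 0 := fun h => hai ((dot_pt _ _).1 h)
    have haj0 : aj ≠ 0 := fun h => haj ((dot_pt _ _).1 h)
    have hc0 : c ≠ 0 := by
      rintro rfl
      have hd0 : d = 0 := by
        have : d * aj = 0 := by linear_combination h0
        exact (mul_eq_zero.1 this).resolve_right haj0
      rw [hd0, zero_smul, zero_smul, add_zero] at hcd
      exact pt_ne_zero l hcd.symm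
    -- the point of the line in the plane
    obtain ⟨m, hm7, hm⟩ := exists_nat (aj * c⁻¹)
    have hcast : comb4 (ev4 p.1 (P j)) (P i) (6 * ev4 p.1 (P i)) (P j) m (P l) = true := by
      rw [comb4_iff, hm]
      have e1 : ((ev4 p.1 (P j) : ℕ) : ZMod 7) = aj := (dot4 p.1 (P j)).symm
      have e2 : ((ev4 p.1 (P i) : ℕ) : ZMod 7) = ai := (dot4 p.1 (P i)).symm
      have h6 : ((6 : ℕ) : ZMod 7) = -1 := by decide
      rw [Nat.cast_mul, e1, e2, h6]
      show aj • pt i + (-1 * ai) • pt j = (aj * c⁻¹) • pt l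
      rw [← hcd, smul_add, smul_smul, smul_smul]
      have h5 : aj * c⁻¹ * c = aj := by rw [mul_assoc, inv_mul_cancel₀ hc0, mul_one]
      have h7 : aj * c⁻¹ * d = -1 * ai := by
        have : d * aj = -(c * ai) := by linear_combination h0
        calc aj * c⁻¹ * d = c⁻¹ * (d * aj) := by ring
          _ = c⁻¹ * (-(c * ai)) := by rw [this]
          _ = -(c⁻¹ * c) * ai := by ring
          _ = -1 * ai := by rw [inv_mul_cancel₀ hc0]
      rw [h5, h7]
    rw [hav l l.2 m hm7] at hcast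
    exact Bool.false_ne_true hcast
  rw [this, rk]
  simp

/-- There is a tangential `1`-block over `GF(7)` with a modular copoint which is not
supersolvable. -/
theorem result : ∃ M : Matroid (Fin 20), rk M M.E = 4 ∧ IsTangentialBlock (ZMod 7) 1 M ∧
    (∃ H, IsModularHyperplane M H) ∧ ¬ IsSupersolvable M := by
  have := Mat_finite
  refine ⟨Mat, Mat_rank, ⟨Mat_finite, Mat_simple, ⟨4, pt, Mat_rep⟩, ?_, ?_⟩,
    ⟨_, Mat_modular⟩, Mat_not_supersolvable⟩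
  · exact (lt_critExp_iff Mat_rep 1).2 Mat_block
  · intro N hN hne hl
    exact minor_le Mat_rep Mat_simple Mat_flats hN hne hl

end Pool.Agent.Results.MP_e1005d_co.NotSupersolvable
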